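import Mathlib

/-!
Arithmetic core for the ordering of omega-values of three generators.
Everything is phrased with exponent triples.
-/

namespace Pool.Agent.MP_1fb722_al.H39

/-- the value `u1 n1 + u2 n2 + u3 n3` lies in `x + ⟨n1, n2, n3⟩`. -/
def InI (n1 n2 n3 x u1 u2 u3 : ℕ) : Prop :=
  ∃ a b c : ℕ, u1 * n1 + u2 * n2 + u3 * n3 = x + (a * n1 + b * n2 + c * n3)

/-- every triple in the ideal dominates a triple in the ideal of length at most `N`. -/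
def Q (n1 n2 n3 x N : ℕ) : Prop :=
  ∀ u1 u2 u3 : ℕ, InI n1 n2 n3 x u1 u2 u3 →
    ∃ v1 v2 v3 : ℕ, v1 ≤ u1 ∧ v2 ≤ u2 ∧ v3 ≤ u3 ∧ v1 + v2 + v3 ≤ N ∧ InI n1 n2 n3 x v1 v2 v3

/-- one-step descent form of `Q`. -/
def Q' (n1 n2 n3 x N : ℕ) : Prop :=
  ∀ u1 u2 u3 : ℕ, InI n1 n2 n3 x u1 u2 u3 → N < u1 + u2 + u3 →
    ∃ v1 v2 v3 : ℕ, v1 ≤ u1 ∧ v2 ≤ u2 ∧ v3 ≤ u3 ∧ v1 + v2 + v3 < u1 + u2 + u3 ∧
      InI n1 n2 n3 x v1 v2 v3

theorem Q_of_Q' {n1 n2 n3 x N : ℕ} (h : Q' n1 n2 n3 x N) : Q n1 n2 n3 x N := by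
  have key : ∀ m u1 u2 u3 : ℕ, u1 + u2 + u3 = m → InI n1 n2 n3 x u1 u2 u3 →
      ∃ v1 v2 v3 : ℕ, v1 ≤ u1 ∧ v2 ≤ u2 ∧ v3 ≤ u3 ∧ v1 + v2 + v3 ≤ N ∧
        InI n1 n2 n3 x v1 v2 v3 := by
    intro m
    induction m using Nat.strong_induction_on with
    | _ m ih =>
      intro u1 u2 u3 hm hu
      by_cases hN : N < u1 + u2 + u3
      · obtain ⟨v1, v2, v3, h1, h2, h3, hlt, hv⟩ := h u1 u2 u3 hu hN
        obtain ⟨w1, w2, w3, g1, g2, g3, hle, hw⟩ :=
          ih (v1 + v2 + v3) (by omega) v1 v2 v3 rfl hv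
        exact ⟨w1, w2, w3, by omega, by omega, by omega, hle, hw⟩
      · exact ⟨u1, u2, u3, le_rfl, le_rfl, le_rfl, by omega, hu⟩
  intro u1 u2 u3 hu
  exact key _ u1 u2 u3 rfl hu

theorem core {n1 n2 n3 N : ℕ} (h0 : 0 < n1) (h12 : n1 < n2) (h23 : n2 < n3)
    (hQ : Q n1 n2 n3 n3 N) : Q n1 n2 n3 n1 N ∨ Q n1 n2 n3 n2 N := by
  classical
  -- K1
  have K1 : ∃ k1 b1 c1 : ℕ, k1 ≤ N ∧ k1 * n1 = b1 * n2 + (c1 + 1) * n3 := by
    obtain ⟨m, rfl⟩ : ∃ m, n1 = m + 1 := ⟨n1 - 1, by omega⟩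
    obtain ⟨v1, v2, v3, h1, h2, h3, hle, a, b, c, hv⟩ :=
      hQ n3 0 0 ⟨0, 0, m, by ring⟩
    have e2 : v2 = 0 := by omega
    have e3 : v3 = 0 := by omega
    subst e2 e3
    have hav : a ≤ v1 := by
      by_contra hlt
      push Not at hlt
      nlinarith [Nat.zero_le (b * n2), Nat.zero_le (c * n3)]
    obtain ⟨k, rfl⟩ := Nat.exists_eq_add_of_le hav
    exact ⟨k, b, c, by omega, by linarith⟩
  have K2 : ∃ k2 a2 c2 : ℕ, k2 ≤ N ∧ k2 * n2 = a2 * n1 + (c2 + 1) * n3 := by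
    obtain ⟨m, rfl⟩ : ∃ m, n2 = m + 1 := ⟨n2 - 1, by omega⟩
    obtain ⟨v1, v2, v3, h1, h2, h3, hle, a, b, c, hv⟩ :=
      hQ 0 n3 0 ⟨0, 0, m, by ring⟩
    have e2 : v1 = 0 := by omega
    have e3 : v3 = 0 := by omega
    subst e2 e3
    have hav : b ≤ v2 := by
      by_contra hlt
      push Not at hlt
      nlinarith [Nat.zero_le (a * n1), Nat.zero_le (c * n3)]
    obtain ⟨k, rfl⟩ := Nat.exists_eq_add_of_le hav
    exact ⟨k, a, c, by omega, by linarith⟩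
  obtain ⟨k1, b1, c1, hk1, e1⟩ := K1
  obtain ⟨k2, a2, c2, hk2, e2⟩ := K2
  have hex : ∃ t : ℕ, 0 < t ∧ ∃ r1 r2 : ℕ, t * n3 = r1 * n1 + r2 * n2 :=
    ⟨n1, h0, n3, 0, by ring⟩
  obtain ⟨t, ⟨ht0, r1, r2, et⟩, hmin⟩ :
      ∃ t : ℕ, (0 < t ∧ ∃ r1 r2 : ℕ, t * n3 = r1 * n1 + r2 * n2) ∧
        ∀ s : ℕ, s < t → ¬ (0 < s ∧ ∃ r1 r2 : ℕ, s * n3 = r1 * n1 + r2 * n2) :=
    ⟨Nat.find hex, Nat.find_spec hex, fun s hs => Nat.find_min hex hs⟩
  have hmin' : ∀ s p q : ℕ, 0 < s → s * n3 = p * n1 + q * n2 → t ≤ s := by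
    intro s p q hs e
    by_contra hlt
    exact hmin s (by omega) ⟨hs, p, q, e⟩
  -- the pair (r1, r2) is a bullet of n3
  have hr : r1 + r2 ≤ N := by
    obtain ⟨s, rfl⟩ : ∃ s, t = s + 1 := ⟨t - 1, by omega⟩
    obtain ⟨v1, v2, v3, h1, h2, h3, hle, a, b, c, hv⟩ :=
      hQ r1 r2 0 ⟨0, 0, s, by linarith⟩
    have e3 : v3 = 0 := by omega
    subst e3
    obtain ⟨d1, rfl⟩ := Nat.exists_eq_add_of_le h1
    obtain ⟨d2, rfl⟩ := Nat.exists_eq_add_of_le h2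
    have hcs : c ≤ s := by
      by_contra hlt
      push Not at hlt
      nlinarith [Nat.zero_le (a * n1), Nat.zero_le (b * n2), Nat.zero_le (d1 * n1),
        Nat.zero_le (d2 * n2)]
    obtain ⟨d, rfl⟩ := Nat.exists_eq_add_of_le hcs
    have ed : d * n3 = (d1 + a) * n1 + (d2 + b) * n2 := by linarith
    have hd : d = 0 := by
      by_contra hd
      have := hmin' d _ _ (by omega) ed
      omega
    subst hd
    have hd1 : d1 = 0 := by
      by_contra hd1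
      have : 0 < (d1 + a) * n1 := Nat.mul_pos (by omega) h0
      omega
    have hd2 : d2 = 0 := by
      by_contra hd2
      have : 0 < (d2 + b) * n2 := Nat.mul_pos (by omega) (by omega)
      omega
    omega
  have ht : t < r1 + r2 := by
    by_contra hge
    push Not at hge
    have h3 : r1 * n1 ≤ r1 * n2 := Nat.mul_le_mul_left _ h12.le
    have h4 : (r1 + r2) * n2 ≤ t * n2 := Nat.mul_le_mul_right _ hge
    have h5 : t * n2 < t * n3 := Nat.mul_lt_mul_of_pos_left h23 ht0 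
    linarith
  by_cases hr1 : 0 < r1
  · left
    apply Q_of_Q'
    obtain ⟨r, rfl⟩ : ∃ r, r1 = r + 1 := ⟨r1 - 1, by omega⟩
    intro u1 u2 u3 ⟨a, b, c, hu⟩ hN
    by_cases hu1 : 0 < u1
    · exact ⟨1, 0, 0, by omega, by omega, by omega, by omega, 0, 0, 0, by ring⟩
    have : u1 = 0 := by omega
    subst this
    by_cases hb : 0 < u2 ∧ 0 < b
    · obtain ⟨u, rfl⟩ : ∃ u, u2 = u + 1 := ⟨u2 - 1, by omega⟩
      obtain ⟨b', rfl⟩ : ∃ b', b = b' + 1 := ⟨b - 1, by omega⟩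
      exact ⟨0, u, u3, by omega, by omega, by omega, by omega, a, b', c, by linarith⟩
    by_cases hc : 0 < u3 ∧ 0 < c
    · obtain ⟨u, rfl⟩ : ∃ u, u3 = u + 1 := ⟨u3 - 1, by omega⟩
      obtain ⟨c', rfl⟩ : ∃ c', c = c' + 1 := ⟨c - 1, by omega⟩
      exact ⟨0, u2, u, by omega, by omega, by omega, by omega, a, b, c', by linarith⟩
    by_cases h3 : t ≤ u3
    · exact ⟨0, 0, t, by omega, by omega, by omega, by omega, r, r2, 0, by linarith⟩
    by_cases hu3 : u3 = 0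
    · subst hu3
      by_cases ha2 : 0 < a2
      · obtain ⟨a', rfl⟩ : ∃ a', a2 = a' + 1 := ⟨a2 - 1, by omega⟩
        exact ⟨0, k2, 0, by omega, by omega, by omega, by omega, a', 0, c2 + 1, by linarith⟩
      · have : a2 = 0 := by omega
        subst this
        have hle : t ≤ c2 + 1 := hmin' (c2 + 1) 0 k2 (by omega) (by linarith)
        obtain ⟨d, hd⟩ := Nat.exists_eq_add_of_le hle
        refine ⟨0, k2, 0, by omega, by omega, by omega, by omega, r, r2, d, ?_⟩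
        rw [hd] at e2
        linarith
    · have hc0 : c = 0 := by omega
      have hu2 : 0 < u2 := by omega
      have hb0 : b = 0 := by omega
      subst hc0 hb0
      have hlt : u2 + u3 ≤ a := by
        by_contra hge
        push Not at hge
        have h5 : (a + 1) * n1 ≤ (u2 + u3) * n1 := Nat.mul_le_mul_right _ hge
        have h6 : u2 * n1 < u2 * n2 := Nat.mul_lt_mul_of_pos_left h12 hu2
        have h7 : u3 * n1 ≤ u3 * n3 := Nat.mul_le_mul_left _ (by omega)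
        linarith
      have hka : k1 ≤ a := by omega
      obtain ⟨d, rfl⟩ := Nat.exists_eq_add_of_le hka
      obtain ⟨u, rfl⟩ : ∃ u, u3 = u + 1 := ⟨u3 - 1, by omega⟩
      exact ⟨0, u2, u, by omega, by omega, by omega, by omega, d, b1, c1, by linarith⟩
  · right
    apply Q_of_Q'
    have : r1 = 0 := by omega
    subst this
    obtain ⟨r, rfl⟩ : ∃ r, r2 = r + 1 := ⟨r2 - 1, by omega⟩
    intro u1 u2 u3 ⟨a, b, c, hu⟩ hN
    by_cases hu2 : 0 < u2
    · exact ⟨0, 1, 0, by omega, by omega, by omega, by omega, 0, 0, 0, by ring⟩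
    have : u2 = 0 := by omega
    subst this
    by_cases ha : 0 < u1 ∧ 0 < a
    · obtain ⟨u, rfl⟩ : ∃ u, u1 = u + 1 := ⟨u1 - 1, by omega⟩
      obtain ⟨a', rfl⟩ : ∃ a', a = a' + 1 := ⟨a - 1, by omega⟩
      exact ⟨u, 0, u3, by omega, by omega, by omega, by omega, a', b, c, by linarith⟩
    by_cases hc : 0 < u3 ∧ 0 < c
    · obtain ⟨u, rfl⟩ : ∃ u, u3 = u + 1 := ⟨u3 - 1, by omega⟩
      obtain ⟨c', rfl⟩ : ∃ c', c = c' + 1 := ⟨c - 1, by omega⟩
      exact ⟨u1, 0, u, by omega, by omega, by omega, by omega, a, b, c', by linarith⟩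
    by_cases h3 : t ≤ u3
    · exact ⟨0, 0, t, by omega, by omega, by omega, by omega, 0, r, 0, by linarith⟩
    by_cases hu3 : u3 = 0
    · subst hu3
      by_cases hb1 : 0 < b1
      · obtain ⟨b', rfl⟩ : ∃ b', b1 = b' + 1 := ⟨b1 - 1, by omega⟩
        exact ⟨k1, 0, 0, by omega, by omega, by omega, by omega, 0, b', c1 + 1, by linarith⟩
      · have : b1 = 0 := by omega
        subst this
        have hle : t ≤ c1 + 1 := hmin' (c1 + 1) k1 0 (by omega) (by linarith)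
        obtain ⟨d, hd⟩ := Nat.exists_eq_add_of_le hle
        refine ⟨k1, 0, 0, by omega, by omega, by omega, by omega, 0, r, d, ?_⟩
        rw [hd] at e1
        linarith
    · have hc0 : c = 0 := by omega
      have hu1 : 0 < u1 := by omega
      have ha0 : a = 0 := by omega
      subst hc0 ha0
      have hlt : u3 ≤ t := by omega
      obtain ⟨d, rfl⟩ := Nat.exists_eq_add_of_le hlt
      by_cases hbr : r < b
      · obtain ⟨e, rfl⟩ := Nat.exists_eq_add_of_lt hbr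
        exact ⟨u1, 0, 0, by omega, by omega, by omega, by omega, 0, e, d, by linarith⟩
      · exfalso
        have hle : b ≤ r := by omega
        obtain ⟨e, rfl⟩ := Nat.exists_eq_add_of_le hle
        have := hmin' d u1 e (by omega) (by linarith)
        omega

end Pool.Agent.MP_1fb722_al.H39
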